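import Pool.Agent.H80.L.R_seed8.TH596.RO.PWd

/-!
# Vectors with a totally bounded orbit under a group of isometries
-/

set_option autoImplicit false
set_option linter.style.haveILetI false
set_option linter.unusedVariables false

namespace Pool.Agent.TH596.RO

open Metric Set

section
variable {V : Type*} [NormedAddCommGroup V] [NormedSpace ℝ V] {Γ : Type*} [Group Γ]

/-- a linear isometric action -/
structure Rp (σ : Γ → (V →L[ℝ] V)) : Prop where
  one : ∀ v, σ 1 v = v
  mul : ∀ g h v, σ (g * h) v = σ g (σ h v)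
  le : ∀ g v, ‖σ g v‖ ≤ ‖v‖

theorem Rp.inv_cancel {σ : Γ → (V →L[ℝ] V)} (h : Rp σ) (g : Γ) (v : V) : σ g (σ g⁻¹ v) = v := by
  rw [← h.mul, mul_inv_cancel, h.one]

theorem Rp.inv_cancel' {σ : Γ → (V →L[ℝ] V)} (h : Rp σ) (g : Γ) (v : V) : σ g⁻¹ (σ g v) = v := by
  rw [← h.mul, inv_mul_cancel, h.one]

theorem Rp.norm {σ : Γ → (V →L[ℝ] V)} (h : Rp σ) (g : Γ) (v : V) : ‖σ g v‖ = ‖v‖ := by
  apply le_antisymm (h.le g v)
  conv_lhs => rw [← h.inv_cancel' g v]
  exact h.le _ _

theorem Rp.dist {σ : Γ → (V →L[ℝ] V)} (h : Rp σ) (g : Γ) (v w : V) : dist (σ g v) (σ g w) = dist v w := by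
  rw [dist_eq_norm, dist_eq_norm, ← map_sub, h.norm]

/-- the closure of the group in the topology of pointwise convergence, with inverses -/
def Pr (σ : Γ → (V →L[ℝ] V)) : Set ((V → V) × (V → V)) :=
  closure (range fun g : Γ => (((fun v => σ g v) : V → V), ((fun v => σ g⁻¹ v) : V → V)))

theorem cont1 (v : V) : Continuous fun p : (V → V) × (V → V) => p.1 v :=
  (continuous_apply v).comp continuous_fst

theorem cont2 (v : V) : Continuous fun p : (V → V) × (V → V) => p.2 v :=
  (continuous_apply v).comp continuous_snd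

theorem Pr_dist {σ : Γ → (V →L[ℝ] V)} (h : Rp σ) {p : (V → V) × (V → V)} (hp : p ∈ Pr σ) (v w : V) :
    dist (p.1 v) (p.1 w) = dist v w := by
  have hcl : IsClosed {p : (V → V) × (V → V) | dist (p.1 v) (p.1 w) = dist v w} :=
    isClosed_eq ((cont1 v).dist (cont1 w)) continuous_const
  refine closure_minimal ?_ hcl hp
  rintro _ ⟨g, rfl⟩
  exact h.dist g v w

theorem Pr_add {σ : Γ → (V →L[ℝ] V)} {p : (V → V) × (V → V)} (hp : p ∈ Pr σ) (v w : V) :
    p.1 (v + w) = p.1 v + p.1 w := by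
  have hcl : IsClosed {p : (V → V) × (V → V) | p.1 (v + w) = p.1 v + p.1 w} :=
    isClosed_eq (cont1 _) ((cont1 v).add (cont1 w))
  refine closure_minimal ?_ hcl hp
  rintro _ ⟨g, rfl⟩
  exact map_add (σ g) v w

theorem Pr_smul {σ : Γ → (V →L[ℝ] V)} {p : (V → V) × (V → V)} (hp : p ∈ Pr σ) (r : ℝ) (v : V) :
    p.1 (r • v) = r • p.1 v := by
  have hcl : IsClosed {p : (V → V) × (V → V) | p.1 (r • v) = r • p.1 v} :=
    isClosed_eq (cont1 _) ((cont1 v).const_smul r)
  refine closure_minimal ?_ hcl hp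
  rintro _ ⟨g, rfl⟩
  exact map_smul (σ g) r v

theorem Pr_swap {σ : Γ → (V →L[ℝ] V)} {p : (V → V) × (V → V)} (hp : p ∈ Pr σ) : p.swap ∈ Pr σ := by
  refine map_mem_closure continuous_swap hp ?_
  rintro _ ⟨g, rfl⟩
  refine ⟨g⁻¹, ?_⟩
  simp

theorem Pr_cancel {σ : Γ → (V →L[ℝ] V)} (h : Rp σ) {p : (V → V) × (V → V)} (hp : p ∈ Pr σ) (v : V) :
    p.1 (p.2 v) = v := by
  rw [← dist_eq_zero]
  apply le_antisymm _ dist_nonneg
  apply le_of_forall_pos_le_add
  intro ε hε
  have hopen : IsOpen {q : (V → V) × (V → V) | dist (q.1 (p.2 v)) (p.1 (p.2 v)) < ε / 2 ∧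
      dist (q.2 v) (p.2 v) < ε / 2} :=
    (isOpen_lt ((cont1 _).dist continuous_const) continuous_const).inter
      (isOpen_lt ((cont2 _).dist continuous_const) continuous_const)
  obtain ⟨_, ⟨hq1, hq2⟩, g, rfl⟩ := mem_closure_iff.1 hp _ hopen
    ⟨by rw [dist_self]; positivity, by rw [dist_self]; positivity⟩
  have h1 : dist (σ g (p.2 v)) v = dist (p.2 v) (σ g⁻¹ v) := by
    conv_lhs => rw [← h.inv_cancel g v]
    rw [h.inv_cancel g v]
    conv_lhs => rw [show v = σ g (σ g⁻¹ v) from (h.inv_cancel g v).symm]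
    rw [h.dist, h.inv_cancel]
  have h2 : dist (p.1 (p.2 v)) v ≤ dist (p.1 (p.2 v)) (σ g (p.2 v)) + dist (σ g (p.2 v)) v := dist_triangle _ _ _
  have h3 : dist (σ g (p.2 v)) (p.1 (p.2 v)) < ε / 2 := hq1
  have h4 : dist (σ g⁻¹ v) (p.2 v) < ε / 2 := hq2
  have h5 := dist_comm (p.1 (p.2 v)) (σ g (p.2 v))
  have h6 := dist_comm (p.2 v) (σ g⁻¹ v)
  linarith

theorem Pr_comp {σ : Γ → (V →L[ℝ] V)} (h : Rp σ) {p q : (V → V) × (V → V)} (hp : p ∈ Pr σ) (hq : q ∈ Pr σ) :
    (p.1 ∘ q.1, q.2 ∘ p.2) ∈ Pr σ := by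
  -- first with q in the group
  have step : ∀ g : Γ, ∀ p ∈ Pr σ, (p.1 ∘ (fun v => σ g v), (fun v => σ g⁻¹ v) ∘ p.2) ∈ Pr σ := by
    intro g p hp
    have hc : Continuous fun p : (V → V) × (V → V) =>
        ((p.1 ∘ (fun v => σ g v), (fun v => σ g⁻¹ v) ∘ p.2) : (V → V) × (V → V)) := by
      refine Continuous.prodMk ?_ ?_
      · exact continuous_pi fun v => cont1 _
      · exact continuous_pi fun v => (σ g⁻¹).continuous.comp (cont2 v)
    refine map_mem_closure (f := fun p : (V → V) × (V → V) =>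
      ((p.1 ∘ (fun v => σ g v), (fun v => σ g⁻¹ v) ∘ p.2) : (V → V) × (V → V))) hc hp ?_
    rintro _ ⟨k, rfl⟩
    refine ⟨k * g, ?_⟩
    refine Prod.ext ?_ ?_
    · funext v
      exact h.mul k g v
    · funext v
      show σ (k * g)⁻¹ v = σ g⁻¹ (σ k⁻¹ v)
      rw [mul_inv_rev, h.mul]
  have hiso : Continuous p.1 := by
    have : Isometry p.1 := Isometry.of_dist_eq fun v w => Pr_dist h hp v w
    exact this.continuous
  have hc : Continuous fun q : (V → V) × (V → V) =>
      ((p.1 ∘ q.1, q.2 ∘ p.2) : (V → V) × (V → V)) := by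
    refine Continuous.prodMk ?_ ?_
    · exact continuous_pi fun v => hiso.comp (cont1 v)
    · exact continuous_pi fun v => cont2 _
  have h2 : (p.1 ∘ q.1, q.2 ∘ p.2) ∈ closure (Pr σ) := by
    refine map_mem_closure (f := fun q : (V → V) × (V → V) =>
      ((p.1 ∘ q.1, q.2 ∘ p.2) : (V → V) × (V → V))) hc hq ?_
    rintro _ ⟨g, rfl⟩
    exact step g p hp
  rwa [Pr, closure_closure] at h2

/-- the compact group -/
def KK (σ : Γ → (V →L[ℝ] V)) : Type _ := Pr σ

instance (σ : Γ → (V →L[ℝ] V)) : TopologicalSpace (KK σ) := inferInstanceAs (TopologicalSpace (Pr σ))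
instance (σ : Γ → (V →L[ℝ] V)) : T2Space (KK σ) := inferInstanceAs (T2Space (Pr σ))

/-- the group structure -/
@[reducible] noncomputable def gKK {σ : Γ → (V →L[ℝ] V)} (h : Rp σ) : Group (KK σ) where
  mul p q := ⟨(p.1.1 ∘ q.1.1, q.1.2 ∘ p.1.2), Pr_comp h p.2 q.2⟩
  one := ⟨(id, id), subset_closure ⟨1, by
    refine Prod.ext ?_ ?_
    · funext v; exact h.one v
    · funext v
      show σ 1⁻¹ v = v
      rw [inv_one, h.one]⟩⟩
  inv p := ⟨p.1.swap, Pr_swap p.2⟩
  mul_assoc p q r := rfl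
  one_mul p := rfl
  mul_one p := rfl
  inv_mul_cancel p := Subtype.ext (Prod.ext (funext fun v => Pr_cancel h (Pr_swap p.2) v)
    (funext fun v => Pr_cancel h (Pr_swap p.2) v))

theorem tgKK {σ : Γ → (V →L[ℝ] V)} (h : Rp σ) : @IsTopologicalGroup (KK σ) _ (gKK h) := by
  letI := gKK h
  have hv1 : ∀ v : V, Continuous fun p : KK σ => p.1.1 v := fun v => (cont1 v).comp continuous_subtype_val
  have hv2 : ∀ v : V, Continuous fun p : KK σ => p.1.2 v := fun v => (cont2 v).comp continuous_subtype_val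
  have hjoint : ∀ (a b : KK σ × KK σ → KK σ) (ha : Continuous a) (hb : Continuous b) (v : V),
      Continuous fun x => (a x).1.1 ((b x).1.1 v) := by
    intro a b ha hb v
    rw [continuous_iff_continuousAt]
    intro x0
    rw [ContinuousAt, tendsto_iff_dist_tendsto_zero]
    have hz : Filter.Tendsto (fun x => dist ((b x).1.1 v) ((b x0).1.1 v) +
        dist ((a x).1.1 ((b x0).1.1 v)) ((a x0).1.1 ((b x0).1.1 v))) (nhds x0) (nhds (0 + 0)) := by
      apply Filter.Tendsto.add
      · rw [← tendsto_iff_dist_tendsto_zero]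
        exact ((hv1 v).comp hb).continuousAt
      · rw [← tendsto_iff_dist_tendsto_zero]
        exact ((hv1 _).comp ha).continuousAt
    rw [add_zero] at hz
    refine squeeze_zero (fun x => dist_nonneg) (fun x => ?_) hz
    calc dist ((a x).1.1 ((b x).1.1 v)) ((a x0).1.1 ((b x0).1.1 v)) ≤
          dist ((a x).1.1 ((b x).1.1 v)) ((a x).1.1 ((b x0).1.1 v)) +
          dist ((a x).1.1 ((b x0).1.1 v)) ((a x0).1.1 ((b x0).1.1 v)) := dist_triangle _ _ _
      _ = _ := by rw [Pr_dist h (a x).2]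
  have hjoint2 : ∀ (a b : KK σ × KK σ → KK σ) (ha : Continuous a) (hb : Continuous b) (v : V),
      Continuous fun x => (a x).1.2 ((b x).1.2 v) := by
    intro a b ha hb v
    rw [continuous_iff_continuousAt]
    intro x0
    rw [ContinuousAt, tendsto_iff_dist_tendsto_zero]
    have hz : Filter.Tendsto (fun x => dist ((b x).1.2 v) ((b x0).1.2 v) +
        dist ((a x).1.2 ((b x0).1.2 v)) ((a x0).1.2 ((b x0).1.2 v))) (nhds x0) (nhds (0 + 0)) := by
      apply Filter.Tendsto.add
      · rw [← tendsto_iff_dist_tendsto_zero]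
        exact ((hv2 v).comp hb).continuousAt
      · rw [← tendsto_iff_dist_tendsto_zero]
        exact ((hv2 _).comp ha).continuousAt
    rw [add_zero] at hz
    refine squeeze_zero (fun x => dist_nonneg) (fun x => ?_) hz
    calc dist ((a x).1.2 ((b x).1.2 v)) ((a x0).1.2 ((b x0).1.2 v)) ≤
          dist ((a x).1.2 ((b x).1.2 v)) ((a x).1.2 ((b x0).1.2 v)) +
          dist ((a x).1.2 ((b x0).1.2 v)) ((a x0).1.2 ((b x0).1.2 v)) := dist_triangle _ _ _
      _ = _ := by
          have := Pr_dist h (Pr_swap (a x).2) ((b x).1.2 v) ((b x0).1.2 v)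
          rw [show dist ((a x).1.2 ((b x).1.2 v)) ((a x).1.2 ((b x0).1.2 v)) =
            dist ((b x).1.2 v) ((b x0).1.2 v) from this]
  exact
    { continuous_mul := by
        refine Continuous.subtype_mk ?_ _
        refine Continuous.prodMk ?_ ?_
        · exact continuous_pi fun v => hjoint Prod.fst Prod.snd continuous_fst continuous_snd v
        · exact continuous_pi fun v => hjoint2 Prod.snd Prod.fst continuous_snd continuous_fst v
      continuous_inv := by
        refine Continuous.subtype_mk ?_ _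
        exact continuous_swap.comp continuous_subtype_val }

theorem cKK [CompleteSpace V] {σ : Γ → (V →L[ℝ] V)}
    (hb : ∀ v, TotallyBounded (range fun g => σ g v)) : CompactSpace (KK σ) := by
  have hK : ∀ v, IsCompact (closure (range fun g => σ g v)) := fun v =>
    (hb v).closure.isCompact_of_isClosed isClosed_closure
  have hP : IsCompact (Pr σ) := by
    have h1 : IsCompact ((pi univ fun v => closure (range fun g => σ g v)) ×ˢ
        (pi univ fun v => closure (range fun g => σ g v)) : Set ((V → V) × (V → V))) :=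
      (isCompact_univ_pi hK).prod (isCompact_univ_pi hK)
    refine h1.of_isClosed_subset isClosed_closure ?_
    refine closure_minimal ?_ h1.isClosed
    rintro _ ⟨g, rfl⟩
    refine ⟨fun v _ => subset_closure ⟨g, rfl⟩, fun v _ => subset_closure ⟨g⁻¹, rfl⟩⟩
  exact isCompact_iff_compactSpace.1 hP

/-- density of the vectors with a finite-dimensional orbit span -/
theorem ap_dense [CompleteSpace V] {σ : Γ → (V →L[ℝ] V)} (h : Rp σ)
    (hb : ∀ v, TotallyBounded (range fun g => σ g v)) (v : V) {ε : ℝ} (hε : 0 < ε) :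
    ∃ w : V, ‖w - v‖ < ε ∧ ∃ F : Submodule ℝ V, FiniteDimensional ℝ F ∧ ∀ g, σ g w ∈ F := by
  let π : KK σ → (V →L[ℝ] V) := fun p =>
    LinearMap.mkContinuous
      { toFun := p.1.1
        map_add' := fun v w => Pr_add p.2 v w
        map_smul' := fun r v => Pr_smul p.2 r v } 1 (fun v => by
          rw [one_mul]
          have h0 : p.1.1 0 = 0 := by
            have := Pr_smul p.2 0 (0 : V)
            rwa [zero_smul, zero_smul] at this
          have := Pr_dist h p.2 v 0
          rw [h0, dist_zero_right, dist_zero_right] at this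
          exact this.le)
  have hπ : ∀ p v, π p v = p.1.1 v := fun p v => rfl
  obtain ⟨w, hw, F, hF, hFw⟩ := @pw_dense (KK σ) (gKK h) _ (tgKK h) (cKK hb) _ V _ _ _ π (fun v => rfl) (fun p q v => rfl) (fun p v => by
      have h0 : p.1.1 0 = 0 := by
        have := Pr_smul p.2 0 (0 : V)
        rwa [zero_smul, zero_smul] at this
      have := Pr_dist h p.2 v 0
      rw [h0, dist_zero_right, dist_zero_right] at this
      exact this.le)
    (fun v => (cont1 v).comp continuous_subtype_val) v ε hε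
  refine ⟨w, hw, F, hF, fun g => ?_⟩
  exact hFw ⟨_, subset_closure ⟨g, rfl⟩⟩

end

section
variable {B : Type*} [NormedAddCommGroup B] [NormedSpace ℝ B] {Γ : Type*} [Group Γ]

/-- the vectors with a totally bounded orbit -/
def APs (σ : Γ → (B →L[ℝ] B)) : Submodule ℝ B where
  carrier := {v | TotallyBounded (range fun g => σ g v)}
  zero_mem' := by
    refine TotallyBounded.subset (s₂ := {(0 : B)}) ?_ (finite_singleton (0 : B)).totallyBounded
    rintro _ ⟨g, rfl⟩
    exact map_zero (σ g)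
  add_mem' := by
    intro a b ha hb
    show TotallyBounded (range fun g => σ g (a + b))
    rw [Metric.totallyBounded_iff]
    intro ε hε
    obtain ⟨s, hs, hcs⟩ := Metric.totallyBounded_iff.1 ha (ε / 2) (by positivity)
    obtain ⟨t, ht, hct⟩ := Metric.totallyBounded_iff.1 hb (ε / 2) (by positivity)
    refine ⟨(fun p : B × B => p.1 + p.2) '' (s ×ˢ t), (hs.prod ht).image _, ?_⟩
    rintro _ ⟨g, rfl⟩
    obtain ⟨y, hy, hgy⟩ := mem_iUnion₂.1 (hcs ⟨g, rfl⟩)
    obtain ⟨z, hz, hgz⟩ := mem_iUnion₂.1 (hct ⟨g, rfl⟩)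
    refine mem_iUnion₂.2 ⟨y + z, ⟨(y, z), ⟨hy, hz⟩, rfl⟩, ?_⟩
    rw [mem_ball, dist_eq_norm] at hgy hgz ⊢
    have h1 : σ g (a + b) - (y + z) = (σ g a - y) + (σ g b - z) := by rw [map_add]; abel
    rw [h1]
    exact lt_of_le_of_lt (norm_add_le _ _) (by linarith)
  smul_mem' := by
    intro c a ha
    refine TotallyBounded.subset ?_ (ha.image (uniformContinuous_const_smul c))
    rintro _ ⟨g, rfl⟩
    exact ⟨σ g a, ⟨g, rfl⟩, (map_smul (σ g) c a).symm⟩

theorem APs_closed {σ : Γ → (B →L[ℝ] B)} (h : Rp σ) : IsClosed (APs σ : Set B) := by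
  rw [← isSeqClosed_iff_isClosed]
  intro u v hu hlim
  show TotallyBounded (range fun g => σ g v)
  rw [Metric.totallyBounded_iff]
  intro ε hε
  rw [Metric.tendsto_atTop] at hlim
  obtain ⟨n, hn⟩ := hlim (ε / 2) (by positivity)
  obtain ⟨t, ht, hcov⟩ := Metric.totallyBounded_iff.1 (hu n) (ε / 2) (by positivity)
  refine ⟨t, ht, ?_⟩
  rintro _ ⟨g, rfl⟩
  obtain ⟨y, hy, hgy⟩ := mem_iUnion₂.1 (hcov ⟨g, rfl⟩)
  refine mem_iUnion₂.2 ⟨y, hy, ?_⟩
  rw [mem_ball] at hgy ⊢
  have h1 : dist (σ g v) (σ g (u n)) < ε / 2 := by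
    rw [h.dist, dist_comm]; exact hn n le_rfl
  calc dist (σ g v) y ≤ dist (σ g v) (σ g (u n)) + dist (σ g (u n)) y := dist_triangle _ _ _
    _ < ε := by linarith

/-- a vector with a totally bounded orbit is a limit of vectors with a finite-dimensional orbit span -/
theorem ap_main [CompleteSpace B] {σ : Γ → (B →L[ℝ] B)} (h : Rp σ) {b : B}
    (hb : TotallyBounded (range fun g => σ g b)) {ε : ℝ} (hε : 0 < ε) :
    ∃ w : B, ‖w - b‖ < ε ∧ ∃ F : Submodule ℝ B, FiniteDimensional ℝ F ∧ ∀ g, σ g w ∈ F := by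
  haveI : CompleteSpace (APs σ) := (APs_closed h).completeSpace_coe
  have hinv : ∀ g, ∀ v : APs σ, σ g v ∈ APs σ := by
    intro g v
    refine TotallyBounded.subset ?_ v.2
    rintro _ ⟨k, rfl⟩
    exact ⟨k * g, h.mul k g v⟩
  let τ : Γ → (APs σ →L[ℝ] APs σ) := fun g => ((σ g).comp (APs σ).subtypeL).codRestrict (APs σ) (hinv g)
  have hτ : Rp τ :=
    { one := fun v => Subtype.ext (h.one v)
      mul := fun g k v => Subtype.ext (h.mul g k v)
      le := fun g v => h.le g v }
  obtain ⟨w, hw, F, hF, hFw⟩ := ap_dense hτ (fun v => by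
    refine TotallyBounded.subset ?_ (totallyBounded_preimage (isUniformInducing_val _) v.2)
    rintro _ ⟨g, rfl⟩
    exact ⟨g, rfl⟩) ⟨b, hb⟩ hε
  exact ⟨w, hw, F.map (APs σ).subtype, inferInstance, fun g => ⟨τ g w, hFw g, rfl⟩⟩

end

end Pool.Agent.TH596.RO
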