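import Pool.Agent.H80.L.R_seed8.TH596.RO.Inj

/-!
# Invariant spaces of operators which are finite-dimensional at one vector
-/

set_option autoImplicit false

namespace Pool.Agent.TH596.RO

open Metric

section
variable {E Y : Type*} [NormedAddCommGroup E] [NormedSpace ℝ E] [NormedAddCommGroup Y] [NormedSpace ℝ Y]

/-- `k` members with independent values at `y` -/
def Pk (N : Submodule ℝ (E →L[ℝ] Y)) (k : ℕ) (y : E) : Prop :=
  ∃ c : Fin k → (E →L[ℝ] Y), (∀ i, c i ∈ N) ∧ LinearIndependent ℝ (fun i => c i y)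

theorem Pk.zero (N : Submodule ℝ (E →L[ℝ] Y)) (y : E) : Pk N 0 y :=
  ⟨fun _ => 0, fun i => i.elim0, linearIndependent_empty_type⟩

/-- the values of the members which vanish at a maximiser -/
theorem max_ker {N : Submodule ℝ (E →L[ℝ] Y)} {r : ℕ} {y1 : E} {c : Fin r → (E →L[ℝ] Y)}
    (hc : ∀ i, c i ∈ N) (hli : LinearIndependent ℝ (fun i => c i y1)) (hmax : ∀ y, ¬ Pk N (r + 1) y)
    {b : E →L[ℝ] Y} (hb : b ∈ N) (hb1 : b y1 = 0) (v : E) :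
    b v ∈ Submodule.span ℝ (Set.range fun i => c i y1) := by
  by_contra hv
  let g : ℝ → Fin (r + 1) → Y := fun t => Fin.cons (b v) (fun i => (c i) (y1 + t • v))
  have hg0 : LinearIndependent ℝ (g 0) := by
    show LinearIndependent ℝ (Fin.cons (b v) _)
    rw [linearIndependent_finCons]
    have he : (fun i => (c i) (y1 + (0 : ℝ) • v)) = fun i => c i y1 := by
      funext i
      rw [zero_smul, add_zero]
    rw [he]
    exact ⟨hli, hv⟩
  have hgc : Continuous g := by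
    apply continuous_pi
    intro j
    refine Fin.cases ?_ (fun i => ?_) j
    · exact continuous_const
    · show Continuous fun t : ℝ => (c i) (y1 + t • v)
      fun_prop
  have hopen : IsOpen (g ⁻¹' {f | LinearIndependent ℝ f}) := isOpen_setOfPred_linearIndependent.preimage hgc
  obtain ⟨ε, hε, hball⟩ := Metric.isOpen_iff.1 hopen 0 hg0
  have ht : LinearIndependent ℝ (g (ε / 2)) := by
    apply hball
    rw [mem_ball, dist_zero_right, Real.norm_of_nonneg (by positivity)]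
    linarith
  have hε2 : ε / 2 ≠ 0 := by positivity
  apply hmax (y1 + (ε / 2) • v)
  refine ⟨Fin.cons ((ε / 2)⁻¹ • b) c, ?_, ?_⟩
  · intro i
    refine Fin.cases ?_ (fun i => ?_) i
    · exact N.smul_mem _ hb
    · exact hc i
  · have he : (fun i => (Fin.cons ((ε / 2)⁻¹ • b) c : Fin (r + 1) → (E →L[ℝ] Y)) i (y1 + (ε / 2) • v))
        = g (ε / 2) := by
      funext j
      refine Fin.cases ?_ (fun i => ?_) j
      · show (ε / 2)⁻¹ • b (y1 + (ε / 2) • v) = b v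
        rw [map_add, hb1, zero_add, map_smul, smul_smul, inv_mul_cancel₀ hε2, one_smul]
      · rfl
    rw [he]
    exact ht

/-- the values of all members at a maximiser -/
theorem max_val {N : Submodule ℝ (E →L[ℝ] Y)} {r : ℕ} {y1 : E} {c : Fin r → (E →L[ℝ] Y)}
    (hc : ∀ i, c i ∈ N) (hli : LinearIndependent ℝ (fun i => c i y1)) (hmax : ∀ y, ¬ Pk N (r + 1) y)
    {a : E →L[ℝ] Y} (ha : a ∈ N) : a y1 ∈ Submodule.span ℝ (Set.range fun i => c i y1) := by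
  by_contra hv
  apply hmax y1
  refine ⟨Fin.cons a c, ?_, ?_⟩
  · intro i
    refine Fin.cases ?_ (fun i => ?_) i
    · exact ha
    · exact hc i
  · have he : (fun i => (Fin.cons a c : Fin (r + 1) → (E →L[ℝ] Y)) i y1)
        = Fin.cons (a y1) (fun i => c i y1) := by
      funext j
      refine Fin.cases ?_ (fun i => ?_) j
      · rfl
      · rfl
    rw [he, linearIndependent_finCons]
    exact ⟨hli, hv⟩

/-- splitting a member at a maximiser -/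
theorem max_split {N : Submodule ℝ (E →L[ℝ] Y)} {r : ℕ} {y1 : E} {c : Fin r → (E →L[ℝ] Y)}
    (hc : ∀ i, c i ∈ N) (hli : LinearIndependent ℝ (fun i => c i y1)) (hmax : ∀ y, ¬ Pk N (r + 1) y)
    {a : E →L[ℝ] Y} (ha : a ∈ N) : ∃ l : Fin r → ℝ, (a - ∑ i, l i • c i) ∈ N ∧ (a - ∑ i, l i • c i) y1 = 0 := by
  have h := max_val hc hli hmax ha
  rw [Submodule.mem_span_range_iff_exists_fun] at h
  obtain ⟨l, hl⟩ := h
  refine ⟨l, N.sub_mem ha (N.sum_mem fun i _ => N.smul_mem _ (hc i)), ?_⟩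
  have : (a - ∑ i, l i • c i) y1 = a y1 - ∑ i, l i • c i y1 := by
    simp [FunLike.coe_sum, Finset.sum_apply]
  rw [this, hl, sub_self]

theorem exists_max {N : Submodule ℝ (E →L[ℝ] Y)} {m : ℕ} (h : ∀ y, ¬ Pk N m y) :
    ∃ r, ∃ y1, Pk N r y1 ∧ ∀ y, ¬ Pk N (r + 1) y := by
  classical
  have hex : ∃ m, ∀ y, ¬ Pk N m y := ⟨m, h⟩
  have h0 : Nat.find hex ≠ 0 := by
    intro h0
    have := Nat.find_spec hex
    rw [h0] at this
    exact this 0 (Pk.zero N 0)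
  refine ⟨Nat.find hex - 1, ?_⟩
  have h1 := Nat.find_min hex (m := Nat.find hex - 1) (by omega)
  push Not at h1
  obtain ⟨y1, hy1⟩ := h1
  refine ⟨y1, hy1, ?_⟩
  have h2 : Nat.find hex - 1 + 1 = Nat.find hex := by omega
  rw [h2]
  exact Nat.find_spec hex

/-- finite dimension at one vector is finite dimension at all vectors -/
theorem pk_bound {H : Subgroup (E ≃ₗᵢ[ℝ] E)} (hH : AT H) {ρ : (E ≃ₗᵢ[ℝ] E) → (Y →ₗ[ℝ] Y)}
    (hρ : ∀ T ∈ H, Function.Injective (ρ T)) {N : Submodule ℝ (E →L[ℝ] Y)}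
    (hN : ∀ T ∈ H, ∀ c ∈ N, ∃ c' ∈ N, ∀ x, c' (T x) = ρ T (c x))
    {x0 : E} (hx0 : x0 ≠ 0) {m : ℕ} (hm : ¬ Pk N m x0) (y : E) : ¬ Pk N m y := by
  rintro ⟨c, hc, hli⟩
  by_cases hy : y = 0
  · rcases Nat.eq_zero_or_pos m with h0 | h0
    · subst h0
      exact hm (Pk.zero N x0)
    · have := hli.ne_zero ⟨0, h0⟩
      apply this
      show c ⟨0, h0⟩ y = 0
      rw [hy, map_zero]
  have hx0n : ‖x0‖ ≠ 0 := norm_ne_zero_iff.2 hx0
  have hyn : 0 < ‖y‖ := norm_pos_iff.2 hy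
  let g : E → Fin m → Y := fun z i => c i z
  have hgc : Continuous g := by
    apply continuous_pi
    intro j
    show Continuous fun z : E => c j z
    fun_prop
  have hopen : IsOpen (g ⁻¹' {f | LinearIndependent ℝ f}) := isOpen_setOfPred_linearIndependent.preimage hgc
  obtain ⟨ε, hε, hball⟩ := Metric.isOpen_iff.1 hopen y hli
  obtain ⟨T, hT, hTx⟩ := hH ((‖x0‖⁻¹ : ℝ) • x0) ((‖y‖⁻¹ : ℝ) • y)
    (by rw [norm_smul, norm_inv, norm_norm, inv_mul_cancel₀ hx0n])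
    (by rw [norm_smul, norm_inv, norm_norm, inv_mul_cancel₀ hyn.ne']) (ε / ‖y‖) (by positivity)
  set x1 : E := (‖y‖ * ‖x0‖⁻¹) • x0 with hx1
  have h1 : T x1 - y = ‖y‖ • (T ((‖x0‖⁻¹ : ℝ) • x0) - (‖y‖⁻¹ : ℝ) • y) := by
    rw [hx1, smul_sub, smul_smul, mul_inv_cancel₀ hyn.ne', one_smul, ← map_smul T, smul_smul]
  have h2 : LinearIndependent ℝ (g (T x1)) := by
    apply hball
    rw [mem_ball, dist_eq_norm, h1, norm_smul, norm_norm]
    calc ‖y‖ * ‖T ((‖x0‖⁻¹ : ℝ) • x0) - (‖y‖⁻¹ : ℝ) • y‖ < ‖y‖ * (ε / ‖y‖) :=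
          mul_lt_mul_of_pos_left hTx hyn
      _ = ε := by field_simp
  have hc' : ∀ i, ∃ c' ∈ N, ∀ x, c' (T⁻¹ x) = ρ T⁻¹ (c i x) := fun i => hN T⁻¹ (H.inv_mem hT) _ (hc i)
  choose c' hc'1 hc'2 using hc'
  apply hm
  have hs : ‖y‖ * ‖x0‖⁻¹ ≠ 0 := mul_ne_zero hyn.ne' (inv_ne_zero hx0n)
  refine ⟨fun i => (‖y‖ * ‖x0‖⁻¹) • c' i, fun i => N.smul_mem _ (hc'1 i), ?_⟩
  have h3 : (fun i => ((‖y‖ * ‖x0‖⁻¹) • c' i) x0) = (ρ T⁻¹) ∘ (g (T x1)) := by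
    funext i
    show (‖y‖ * ‖x0‖⁻¹) • (c' i) x0 = ρ T⁻¹ (c i (T x1))
    rw [← hc'2 i (T x1)]
    have : T⁻¹ (T x1) = x1 := T.symm_apply_apply _
    rw [this, hx1, map_smul]
  rw [h3]
  exact h2.map' _ (LinearMap.ker_eq_bot.2 (hρ _ (H.inv_mem hT)))

/-- the members of finite rank vanish -/
theorem pt_rank {H : Subgroup (E ≃ₗᵢ[ℝ] E)} {ρ : (E ≃ₗᵢ[ℝ] E) → (Y →ₗ[ℝ] Y)}
    {N : Submodule ℝ (E →L[ℝ] Y)}
    (hN : ∀ T ∈ H, ∀ c ∈ N, ∃ c' ∈ N, ∀ x, c' (T x) = ρ T (c x))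
    (hY : ∀ R : Submodule ℝ Y, FiniteDimensional ℝ R → (∀ T ∈ H, ∀ f ∈ R, ρ T f ∈ R) → R = ⊥)
    {m : ℕ} (hm : ∀ y, ¬ Pk N m y) {c : E →L[ℝ] Y} (hc : c ∈ N)
    {W : Submodule ℝ Y} (hW : FiniteDimensional ℝ W) (hcW : ∀ v, c v ∈ W) : c = 0 := by
  classical
  -- the members of finite rank
  let Fr : Submodule ℝ (E →L[ℝ] Y) :=
    { carrier := {c | c ∈ N ∧ ∃ W : Submodule ℝ Y, FiniteDimensional ℝ W ∧ ∀ v, c v ∈ W}
      zero_mem' := ⟨N.zero_mem, ⊥, inferInstance, fun v => by simp⟩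
      add_mem' := by
        rintro a b ⟨ha, Wa, hWa, ha2⟩ ⟨hb, Wb, hWb, hb2⟩
        exact ⟨N.add_mem ha hb, Wa ⊔ Wb, inferInstance, fun v =>
          (Wa ⊔ Wb).add_mem ((le_sup_left : Wa ≤ Wa ⊔ Wb) (ha2 v)) ((le_sup_right : Wb ≤ Wa ⊔ Wb) (hb2 v))⟩
      smul_mem' := by
        rintro s a ⟨ha, Wa, hWa, ha2⟩
        exact ⟨N.smul_mem s ha, Wa, hWa, fun v => Wa.smul_mem s (ha2 v)⟩ }
  have hFrN : Fr ≤ N := fun x hx => hx.1
  have hmF : ∀ y, ¬ Pk Fr m y := fun y ⟨c, h1, h2⟩ => hm y ⟨c, fun i => hFrN (h1 i), h2⟩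
  obtain ⟨r, y1, ⟨b, hb, hli⟩, hmax⟩ := exists_max hmF
  have hb' : ∀ i, ∃ W : Submodule ℝ Y, FiniteDimensional ℝ W ∧ ∀ v, b i v ∈ W := fun i => (hb i).2
  choose Wb hWb1 hWb2 using hb'
  haveI : ∀ i, FiniteDimensional ℝ (Wb i) := hWb1
  -- all values
  let R : Submodule ℝ Y := Submodule.span ℝ {x | ∃ a ∈ Fr, ∃ v, x = a v}
  let U : Submodule ℝ Y := (⨆ i, Wb i) ⊔ Submodule.span ℝ (Set.range fun i => b i y1)
  haveI h1 : FiniteDimensional ℝ (⨆ i, Wb i : Submodule ℝ Y) := inferInstance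
  haveI h2 : FiniteDimensional ℝ (Submodule.span ℝ (Set.range fun i => b i y1)) :=
    FiniteDimensional.span_of_finite ℝ (Set.finite_range _)
  haveI hU : FiniteDimensional ℝ U := inferInstanceAs (FiniteDimensional ℝ (_ ⊔ _ : Submodule ℝ Y))
  have hR1 : R ≤ U := by
    rw [Submodule.span_le]
    rintro _ ⟨a, ha, v, rfl⟩
    obtain ⟨l, hl1, hl2⟩ := max_split hb hli hmax ha
    have h3 := max_ker hb hli hmax hl1 hl2 v
    have h4 : a v = (∑ i, l i • b i v) + (a - ∑ i, l i • b i) v := by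
      simp [FunLike.coe_sum, Finset.sum_apply]
    rw [h4]
    refine U.add_mem (U.sum_mem fun i _ => U.smul_mem _ ?_) ((le_sup_right : _ ≤ U) h3)
    exact (le_sup_left : _ ≤ U) ((le_iSup Wb i) (hWb2 i v))
  haveI hRfd : FiniteDimensional ℝ R := Submodule.finiteDimensional_of_le hR1
  have hRinv : ∀ T ∈ H, ∀ x ∈ R, ρ T x ∈ R := by
    intro T hT x hx
    have : R ≤ R.comap (ρ T) := by
      rw [Submodule.span_le]
      rintro _ ⟨a, ha, v, rfl⟩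
      show ρ T (a v) ∈ R
      apply Submodule.subset_span
      obtain ⟨a', ha'1, ha'2⟩ := hN T hT a ha.1
      refine ⟨a', ⟨ha'1, ?_⟩, T v, (ha'2 v).symm⟩
      obtain ⟨W', hW', ha'⟩ := ha.2
      refine ⟨W'.map (ρ T), inferInstance, fun v => ?_⟩
      have h5 : a' v = ρ T (a (T.symm v)) := by rw [← ha'2, T.apply_symm_apply]
      rw [h5]
      exact ⟨_, ha' _, rfl⟩
    exact this hx
  have hbot := hY R hRfd hRinv
  ext v
  have : c v ∈ R := Submodule.subset_span ⟨c, ⟨hc, W, hW, hcW⟩, v, rfl⟩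
  rw [hbot, Submodule.mem_bot] at this
  rw [this]
  simp

/-- an invariant space of operators which is finite-dimensional at one vector is finite-dimensional -/
theorem pt_fd {H : Subgroup (E ≃ₗᵢ[ℝ] E)} (hH : AT H) {ρ : (E ≃ₗᵢ[ℝ] E) → (Y →ₗ[ℝ] Y)}
    (hρ : ∀ T ∈ H, Function.Injective (ρ T)) {N : Submodule ℝ (E →L[ℝ] Y)}
    (hN : ∀ T ∈ H, ∀ c ∈ N, ∃ c' ∈ N, ∀ x, c' (T x) = ρ T (c x))
    (hY : ∀ R : Submodule ℝ Y, FiniteDimensional ℝ R → (∀ T ∈ H, ∀ f ∈ R, ρ T f ∈ R) → R = ⊥)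
    {x0 : E} (hx0 : x0 ≠ 0) {W : Submodule ℝ Y} (hW : FiniteDimensional ℝ W) (hNW : ∀ c ∈ N, c x0 ∈ W) :
    FiniteDimensional ℝ N := by
  classical
  have hm0 : ¬ Pk N (Module.finrank ℝ W + 1) x0 := by
    rintro ⟨c, hc, hli⟩
    have hli2 : LinearIndependent ℝ (fun j => (⟨c j x0, hNW _ (hc j)⟩ : W)) := by
      apply LinearIndependent.of_comp W.subtype
      exact hli
    have hcard := hli2.fintype_card_le_finrank
    rw [Fintype.card_fin] at hcard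
    omega
  have hm := pk_bound hH hρ hN hx0 hm0
  obtain ⟨r, y1, ⟨b, hb, hli⟩, hmax⟩ := exists_max hm
  haveI h2 : FiniteDimensional ℝ (Submodule.span ℝ (Set.range fun i => b i y1)) :=
    FiniteDimensional.span_of_finite ℝ (Set.finite_range _)
  haveI h3 : FiniteDimensional ℝ (Submodule.span ℝ (Set.range b)) :=
    FiniteDimensional.span_of_finite ℝ (Set.finite_range _)
  apply Submodule.finiteDimensional_of_le (S₂ := Submodule.span ℝ (Set.range b))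
  intro a ha
  obtain ⟨l, hl1, hl2⟩ := max_split hb hli hmax ha
  have h4 : a - ∑ i, l i • b i = 0 :=
    pt_rank hN hY hm hl1 h2 (fun v => max_ker hb hli hmax hl1 hl2 v)
  rw [sub_eq_zero] at h4
  rw [h4]
  exact Submodule.sum_mem _ fun i _ => Submodule.smul_mem _ _ (Submodule.subset_span ⟨i, rfl⟩)

/-- no finite-dimensional invariant subspaces -/
theorem no_inv (hE : ¬ FiniteDimensional ℝ E) {H : Subgroup (E ≃ₗᵢ[ℝ] E)} (hH : AT H)
    (R : Submodule ℝ E) (hR : FiniteDimensional ℝ R) (hRinv : ∀ T ∈ H, ∀ x ∈ R, T x ∈ R) : R = ⊥ := by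
  by_contra hne
  obtain ⟨u, huR, hu⟩ := (Submodule.ne_bot_iff _).1 hne
  have hun : ‖u‖ ≠ 0 := norm_ne_zero_iff.2 hu
  have hcl : IsClosed (R : Set E) := R.closed_of_finiteDimensional
  have huR' : (‖u‖⁻¹ : ℝ) • u ∈ R := R.smul_mem _ huR
  have hu1 : ‖(‖u‖⁻¹ : ℝ) • u‖ = 1 := by
    rw [norm_smul, norm_inv, norm_norm, inv_mul_cancel₀ hun]
  have hall : ∀ z : E, ‖z‖ = 1 → z ∈ R := by
    intro z hz
    have : z ∈ closure (R : Set E) := by
      rw [Metric.mem_closure_iff]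
      intro ε hε
      obtain ⟨T, hT, hTz⟩ := hH _ z hu1 hz ε hε
      refine ⟨_, hRinv T hT _ huR', ?_⟩
      rw [dist_comm, dist_eq_norm]
      exact hTz
    rwa [hcl.closure_eq] at this
  apply hE
  have htop : R = ⊤ := by
    rw [eq_top_iff]
    intro z _
    by_cases hz : z = 0
    · rw [hz]; exact R.zero_mem
    have h1 := hall ((‖z‖⁻¹ : ℝ) • z) (by
      rw [norm_smul, norm_inv, norm_norm, inv_mul_cancel₀ (norm_ne_zero_iff.2 hz)])
    have h2 := R.smul_mem ‖z‖ h1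
    rwa [smul_smul, mul_inv_cancel₀ (norm_ne_zero_iff.2 hz), one_smul] at h2
  rw [htop] at hR
  exact Module.Finite.equiv (Submodule.topEquiv : (⊤ : Submodule ℝ E) ≃ₗ[ℝ] E)

/-- the operator case -/
theorem op_fd (hE : ¬ FiniteDimensional ℝ E) {H : Subgroup (E ≃ₗᵢ[ℝ] E)} (hH : AT H)
    {N : Submodule ℝ (E →L[ℝ] E)} (hN : Inv H N) {x0 : E} (hx0 : x0 ≠ 0) {W : Submodule ℝ E}
    (hW : FiniteDimensional ℝ W) (hNW : ∀ c ∈ N, c x0 ∈ W) : FiniteDimensional ℝ N := by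
  refine pt_fd (ρ := fun T => (T.toLinearEquiv : E →ₗ[ℝ] E)) hH (fun T _ => T.injective)
    (fun T hT c hc => ⟨cj T c, hN T hT c hc, fun x => cj_apply' T c x⟩) ?_ hx0 hW hNW
  intro R hR hinv
  exact no_inv hE hH R hR hinv

/-- pull back of a functional -/
noncomputable def du (T : E ≃ₗᵢ[ℝ] E) : (E →L[ℝ] ℝ) →ₗ[ℝ] (E →L[ℝ] ℝ) where
  toFun f := f.comp (T.symm.toContinuousLinearEquiv : E →L[ℝ] E)
  map_add' a b := rfl
  map_smul' r a := rfl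

theorem du_apply (T : E ≃ₗᵢ[ℝ] E) (f : E →L[ℝ] ℝ) (x : E) : du T f x = f (T.symm x) := rfl

theorem du_inj (T : E ≃ₗᵢ[ℝ] E) : Function.Injective (du T) := by
  intro f g h
  ext x
  have := congrArg (fun k : E →L[ℝ] ℝ => k (T x)) h
  simp only [du_apply, T.symm_apply_apply] at this
  exact this

/-- no finite-dimensional invariant subspaces of the dual -/
theorem no_inv_dual (hE : ¬ FiniteDimensional ℝ E) {H : Subgroup (E ≃ₗᵢ[ℝ] E)} (hH : AT H)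
    (R : Submodule ℝ (E →L[ℝ] ℝ)) (hR : FiniteDimensional ℝ R) (hRinv : ∀ T ∈ H, ∀ x ∈ R, du T x ∈ R) :
    R = ⊥ := by
  classical
  haveI : Module.Free ℝ R := Module.Free.of_divisionRing ℝ R
  let b := Module.finBasis ℝ R
  let Φ : E →ₗ[ℝ] (Fin (Module.finrank ℝ R) → ℝ) := LinearMap.pi fun i => ((b i : E →L[ℝ] ℝ) : E →ₗ[ℝ] ℝ)
  have hker : LinearMap.ker Φ ≠ ⊥ := by
    intro h
    apply hE
    exact FiniteDimensional.of_injective Φ (LinearMap.ker_eq_bot.1 h)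
  obtain ⟨u, hu, hu0⟩ := (Submodule.ne_bot_iff _).1 hker
  have hun : ‖u‖ ≠ 0 := norm_ne_zero_iff.2 hu0
  have hfu : ∀ f ∈ R, f u = 0 := by
    intro f hf
    have h1 := b.sum_repr ⟨f, hf⟩
    have h2 : f = ∑ i, b.repr ⟨f, hf⟩ i • ((b i : R) : E →L[ℝ] ℝ) := by
      calc f = ((∑ i, b.repr ⟨f, hf⟩ i • b i : R) : E →L[ℝ] ℝ) := by rw [h1]
        _ = ∑ i, b.repr ⟨f, hf⟩ i • ((b i : R) : E →L[ℝ] ℝ) := by
          rw [Submodule.coe_sum]; rfl
    rw [h2]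
    simp only [FunLike.coe_sum, Finset.sum_apply]
    apply Finset.sum_eq_zero
    intro i _
    have h3 : Φ u i = 0 := by rw [LinearMap.mem_ker.1 hu]; rfl
    show b.repr ⟨f, hf⟩ i • ((b i : R) : E →L[ℝ] ℝ) u = 0
    have h4 : ((b i : R) : E →L[ℝ] ℝ) u = 0 := h3
    rw [h4, smul_zero]
  have hu1 : ‖(‖u‖⁻¹ : ℝ) • u‖ = 1 := by
    rw [norm_smul, norm_inv, norm_norm, inv_mul_cancel₀ hun]
  rw [eq_bot_iff]
  intro f hf
  rw [Submodule.mem_bot]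
  -- f vanishes on the orbit
  have horb : ∀ T ∈ H, f (T ((‖u‖⁻¹ : ℝ) • u)) = 0 := by
    intro T hT
    have h1 := hfu _ (hRinv T⁻¹ (H.inv_mem hT) f hf)
    have h2 : du T⁻¹ f u = f (T u) := rfl
    rw [h2] at h1
    rw [map_smul, map_smul, h1, smul_zero]
  have hz : ∀ z : E, ‖z‖ = 1 → f z = 0 := by
    intro z hz
    by_contra hne
    obtain ⟨T, hT, hTz⟩ := hH _ z hu1 hz (|f z| / (‖f‖ + 1)) (by positivity)
    have h1 : |f z| ≤ ‖f‖ * ‖T ((‖u‖⁻¹ : ℝ) • u) - z‖ := by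
      have h2 := f.le_opNorm (T ((‖u‖⁻¹ : ℝ) • u) - z)
      rw [map_sub, horb T hT, zero_sub, norm_neg, Real.norm_eq_abs] at h2
      exact h2
    have h3 : ‖f‖ * ‖T ((‖u‖⁻¹ : ℝ) • u) - z‖ ≤ ‖f‖ * (|f z| / (‖f‖ + 1)) :=
      mul_le_mul_of_nonneg_left hTz.le (norm_nonneg _)
    have h4 : ‖f‖ * (|f z| / (‖f‖ + 1)) < |f z| := by
      rw [mul_div_assoc', div_lt_iff₀ (by positivity)]
      nlinarith [abs_pos.2 hne, norm_nonneg f]
    linarith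
  ext z
  by_cases hz0 : z = 0
  · rw [hz0, map_zero, map_zero]
  have h1 := hz ((‖z‖⁻¹ : ℝ) • z) (by
    rw [norm_smul, norm_inv, norm_norm, inv_mul_cancel₀ (norm_ne_zero_iff.2 hz0)])
  rw [map_smul] at h1
  exact (smul_eq_zero.1 h1).resolve_left (inv_ne_zero (norm_ne_zero_iff.2 hz0))

/-- transport of a bilinear form -/
noncomputable def bl (T : E ≃ₗᵢ[ℝ] E) : (E →L[ℝ] E →L[ℝ] ℝ) →ₗ[ℝ] (E →L[ℝ] E →L[ℝ] ℝ) where
  toFun b := b.bilinearComp (T.symm.toContinuousLinearEquiv : E →L[ℝ] E)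
    (T.symm.toContinuousLinearEquiv : E →L[ℝ] E)
  map_add' a b := rfl
  map_smul' r a := rfl

theorem bl_apply (T : E ≃ₗᵢ[ℝ] E) (b : E →L[ℝ] E →L[ℝ] ℝ) (x y : E) :
    bl T b x y = b (T.symm x) (T.symm y) := rfl

theorem bl_mul (S T : E ≃ₗᵢ[ℝ] E) (b : E →L[ℝ] E →L[ℝ] ℝ) : bl (S * T) b = bl S (bl T b) := rfl

theorem bl_one (b : E →L[ℝ] E →L[ℝ] ℝ) : bl (1 : E ≃ₗᵢ[ℝ] E) b = b := rfl

/-- the case of bilinear forms -/
theorem form_fd (hE : ¬ FiniteDimensional ℝ E) {H : Subgroup (E ≃ₗᵢ[ℝ] E)} (hH : AT H)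
    {N : Submodule ℝ (E →L[ℝ] E →L[ℝ] ℝ)} (hN : ∀ T ∈ H, ∀ b ∈ N, bl T b ∈ N) {x0 : E} (hx0 : x0 ≠ 0)
    {W : Submodule ℝ (E →L[ℝ] ℝ)} (hW : FiniteDimensional ℝ W) (hNW : ∀ c ∈ N, c x0 ∈ W) :
    Module.Finite ℝ N := by
  refine pt_fd (ρ := du) hH (fun T _ => du_inj T)
    (fun T hT c hc => ⟨bl T c, hN T hT c hc, fun x => ?_⟩) ?_ hx0 hW hNW
  · ext y
    rw [bl_apply, du_apply, T.symm_apply_apply]
  · intro R hR hinv
    exact no_inv_dual hE hH R hR hinv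

end

end Pool.Agent.TH596.RO
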