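import Pool.Agent.H80.L.R_seed8.TH596.RO.Orb

/-!
# Orbits contained in a countable union of subspaces of bounded finite dimension
-/

set_option autoImplicit false

namespace Pool.Agent.TH596.RO

open Metric Quaternion

section
variable {E : Type*} [NormedAddCommGroup E] [NormedSpace ℝ E]

/-- the orbit of `a` lies in a countable union of subspaces of dimension at most `d` -/
def Cov (G : Subgroup (E ≃ₗᵢ[ℝ] E)) (a : E →L[ℝ] E) (d : ℕ) : Prop :=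
  ∃ F : ℕ → Submodule ℝ (E →L[ℝ] E), (∀ n, FiniteDimensional ℝ (F n) ∧ Module.finrank ℝ (F n) ≤ d) ∧
    ∀ T ∈ G, ∃ n, cj T a ∈ F n

/-- the part of the orbit of `a` in `X` lies in a countable union of subspaces of dimension `< d` -/
def Thin (G : Subgroup (E ≃ₗᵢ[ℝ] E)) (a : E →L[ℝ] E) (d : ℕ) (X : Submodule ℝ (E →L[ℝ] E)) : Prop :=
  ∃ F : ℕ → Submodule ℝ (E →L[ℝ] E), (∀ n, FiniteDimensional ℝ (F n) ∧ Module.finrank ℝ (F n) < d) ∧
    ∀ T ∈ G, cj T a ∈ X → ∃ n, cj T a ∈ F n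

/-- `cj T` as a linear map -/
noncomputable def cl (T : E ≃ₗᵢ[ℝ] E) : (E →L[ℝ] E) →ₗ[ℝ] (E →L[ℝ] E) := (cj T).toLinearMap

theorem cl_apply (T : E ≃ₗᵢ[ℝ] E) (a : E →L[ℝ] E) : cl T a = cj T a := rfl

theorem map_cl_mul (S T : E ≃ₗᵢ[ℝ] E) (X : Submodule ℝ (E →L[ℝ] E)) :
    X.map (cl (S * T)) = (X.map (cl T)).map (cl S) := by
  rw [← Submodule.map_comp]; rfl

theorem map_cl_one (X : Submodule ℝ (E →L[ℝ] E)) : X.map (cl (1 : E ≃ₗᵢ[ℝ] E)) = X := by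
  have : cl (1 : E ≃ₗᵢ[ℝ] E) = LinearMap.id := rfl
  rw [this, Submodule.map_id]

theorem thin_map {G : Subgroup (E ≃ₗᵢ[ℝ] E)} {a : E →L[ℝ] E} {d : ℕ} {X : Submodule ℝ (E →L[ℝ] E)}
    {S : E ≃ₗᵢ[ℝ] E} (hS : S ∈ G) (h : Thin G a d (X.map (cl S))) : Thin G a d X := by
  obtain ⟨F, hF, hcov⟩ := h
  refine ⟨fun n => (F n).map (cl S⁻¹), fun n => ⟨?_, ?_⟩, fun T hT hX => ?_⟩
  · haveI := (hF n).1
    infer_instance
  · haveI := (hF n).1
    exact lt_of_le_of_lt (Submodule.finrank_map_le _ _) (hF n).2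
  · obtain ⟨n, hn⟩ := hcov (S * T) (G.mul_mem hS hT) ⟨cj T a, hX, rfl⟩
    exact ⟨n, ⟨_, hn, by rw [cl_apply, cj_mul, cj_inv_cj]⟩⟩

theorem exists_inv {G : Subgroup (E ≃ₗᵢ[ℝ] E)} {a : E →L[ℝ] E} {d : ℕ} (h : Cov G a d) :
    ∃ H ≤ G, CI G H ∧ ∃ F : Submodule ℝ (E →L[ℝ] E), FiniteDimensional ℝ F ∧ Inv H F ∧ a ∈ F := by
  classical
  by_cases ha : a = 0
  · exact ⟨G, le_rfl, CI.refl G, ⊥, inferInstance, fun T _ c hc => by
      rw [Submodule.mem_bot] at hc ⊢; rw [hc, map_zero], by rw [Submodule.mem_bot]; exact ha⟩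
  have hex : ∃ d, Cov G a d := ⟨d, h⟩
  set e := Nat.find hex with he
  obtain ⟨F, hF, hcov⟩ := Nat.find_spec hex
  rw [← he] at hF
  have he0 : e ≠ 0 := by
    intro h0
    obtain ⟨n, hn⟩ := hcov 1 G.one_mem
    haveI := (hF n).1
    have h1 : Module.finrank ℝ (F n) = 0 := by
      have := (hF n).2
      omega
    rw [Submodule.finrank_eq_zero] at h1
    rw [h1, Submodule.mem_bot, cj_one] at hn
    exact ha hn
  -- some member is not thin
  obtain ⟨n0, hn0⟩ : ∃ n, ¬ Thin G a e (F n) := by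
    by_contra hcon
    push Not at hcon
    choose F' hF' hcov' using hcon
    have hC : Cov G a (e - 1) := by
      refine ⟨fun k => F' (Nat.unpair k).1 (Nat.unpair k).2, fun k => ⟨(hF' _ _).1, ?_⟩, fun T hT => ?_⟩
      · have := (hF' (Nat.unpair k).1 (Nat.unpair k).2).2
        show Module.finrank ℝ (F' (Nat.unpair k).1 (Nat.unpair k).2) ≤ e - 1
        omega
      · obtain ⟨n, hn⟩ := hcov T hT
        obtain ⟨m, hm⟩ := hcov' n T hT hn
        refine ⟨Nat.pair n m, ?_⟩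
        simp only [Nat.unpair_pair]
        exact hm
    exact Nat.find_min hex (m := e - 1) (by omega) hC
  -- subspaces which are not thin are among the `F m`
  have hmem : ∀ X : Submodule ℝ (E →L[ℝ] E), FiniteDimensional ℝ X → Module.finrank ℝ X ≤ e →
      ¬ Thin G a e X → ∃ m, X = F m := by
    intro X hX1 hX2 hX3
    by_contra hcon
    push Not at hcon
    apply hX3
    refine ⟨fun m => X ⊓ F m, fun m => ⟨inferInstance, ?_⟩, fun T hT hXT => ?_⟩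
    · haveI := (hF m).1
      rcases Nat.lt_or_ge (Module.finrank ℝ (X ⊓ F m : Submodule ℝ (E →L[ℝ] E))) e with h1 | h1
      · exact h1
      · exfalso
        have h2 : X ⊓ F m = X := Submodule.eq_of_le_of_finrank_le inf_le_left (hX2.trans h1)
        have h3 : X ⊓ F m = F m := Submodule.eq_of_le_of_finrank_le inf_le_right ((hF m).2.trans h1)
        exact hcon m (h2.symm.trans h3)
    · obtain ⟨m, hm⟩ := hcov T hT
      exact ⟨m, hXT, hm⟩
  -- move it to contain `a`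
  obtain ⟨T0, hT0, hT0a⟩ : ∃ T ∈ G, cj T a ∈ F n0 := by
    by_contra hcon
    push Not at hcon
    apply hn0
    exact ⟨fun _ => ⊥, fun n => ⟨inferInstance, by rw [finrank_bot]; omega⟩, fun T hT hX => absurd hX (hcon T hT)⟩
  haveI := (hF n0).1
  set X := (F n0).map (cl T0⁻¹) with hX
  have haX : a ∈ X := ⟨cj T0 a, hT0a, cj_inv_cj T0 a⟩
  have hX1 : FiniteDimensional ℝ X := inferInstance
  have hXthin : ¬ Thin G a e X := by
    intro hth
    apply hn0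
    apply thin_map (G.inv_mem hT0)
    exact hth
  have hall : ∀ T ∈ G, ∃ m, X.map (cl T) = F m := by
    intro T hT
    apply hmem
    · infer_instance
    · exact (Submodule.finrank_map_le _ _).trans ((Submodule.finrank_map_le _ _).trans (hF n0).2)
    · intro hth
      apply hXthin
      have h1 : X = (X.map (cl T)).map (cl T⁻¹) := by
        rw [← map_cl_mul, inv_mul_cancel, map_cl_one]
      exact thin_map hT hth
  -- the stabiliser
  let H : Subgroup (E ≃ₗᵢ[ℝ] E) :=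
    { carrier := {T | T ∈ G ∧ X.map (cl T) = X}
      mul_mem' := by
        rintro S T ⟨hS, hS2⟩ ⟨hT, hT2⟩
        exact ⟨G.mul_mem hS hT, by rw [map_cl_mul, hT2, hS2]⟩
      one_mem' := ⟨G.one_mem, map_cl_one X⟩
      inv_mem' := by
        rintro T ⟨hT, hT2⟩
        refine ⟨G.inv_mem hT, ?_⟩
        conv_lhs => rw [← hT2]
        rw [← map_cl_mul, inv_mul_cancel, map_cl_one] }
  refine ⟨H, fun T hT => hT.1, ?_, X, hX1, ?_, haX⟩
  · let c : ℕ → E ≃ₗᵢ[ℝ] E := fun m => if hm : ∃ T ∈ G, X.map (cl T) = F m then hm.choose else 1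
    refine ⟨c, fun T hT => ?_⟩
    obtain ⟨m, hm⟩ := hall T hT
    refine ⟨m, ?_⟩
    have hex' : ∃ T ∈ G, X.map (cl T) = F m := ⟨T, hT, hm⟩
    have hc : c m ∈ G ∧ X.map (cl (c m)) = F m := by
      simp only [c, dif_pos hex']
      exact hex'.choose_spec
    refine ⟨G.mul_mem (G.inv_mem hc.1) hT, ?_⟩
    rw [map_cl_mul, hm, ← hc.2, ← map_cl_mul, inv_mul_cancel, map_cl_one]
  · intro T hT b hb
    have : cl T b ∈ X.map (cl T) := ⟨b, hb, rfl⟩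
    rw [hT.2] at this
    exact this

theorem cov_of_inv {G H : Subgroup (E ≃ₗᵢ[ℝ] E)} {a : E →L[ℝ] E} (h : CI G H)
    {F : Submodule ℝ (E →L[ℝ] E)} (hF1 : FiniteDimensional ℝ F) (hF2 : Inv H F) (ha : a ∈ F) :
    Cov G a (Module.finrank ℝ F) := by
  obtain ⟨c, hc⟩ := h
  refine ⟨fun n => F.map (cl (c n)), fun n => ⟨inferInstance, Submodule.finrank_map_le _ _⟩, fun T hT => ?_⟩
  obtain ⟨n, hn⟩ := hc T hT
  refine ⟨n, ⟨cj ((c n)⁻¹ * T) a, hF2 _ hn a ha, ?_⟩⟩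
  rw [cl_apply, cj_mul, cj_cj_inv]

/-- the family of subgroups of countable index -/
def fam (G : Subgroup (E ≃ₗᵢ[ℝ] E)) : Set (Subgroup (E ≃ₗᵢ[ℝ] E)) := {H | H ≤ G ∧ CI G H}

theorem fam_ne (G : Subgroup (E ≃ₗᵢ[ℝ] E)) : (fam G).Nonempty := ⟨G, le_rfl, CI.refl G⟩

theorem fam_inf (G : Subgroup (E ≃ₗᵢ[ℝ] E)) : ∀ H ∈ fam G, ∀ H' ∈ fam G, H ⊓ H' ∈ fam G :=
  fun _ hH _ hH' => ⟨inf_le_left.trans hH.1, hH.2.inf hH'.2⟩

theorem mem_Al_fam {G : Subgroup (E ≃ₗᵢ[ℝ] E)} {a : E →L[ℝ] E} :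
    a ∈ Al (fam G) (fam_ne G) (fam_inf G) ↔ ∃ d, Cov G a d := by
  constructor
  · rintro ⟨H, hH, F, hF1, hF2, ha⟩
    exact ⟨_, cov_of_inv hH.2 hF1 hF2 ha⟩
  · rintro ⟨d, h⟩
    obtain ⟨H, hH1, hH2, F, hF1, hF2, ha⟩ := exists_inv h
    exact ⟨H, ⟨hH1, hH2⟩, F, hF1, hF2, ha⟩

theorem one_ne (G : Subgroup (E ≃ₗᵢ[ℝ] E)) : ({G} : Set (Subgroup (E ≃ₗᵢ[ℝ] E))).Nonempty := ⟨G, rfl⟩

theorem one_inf (G : Subgroup (E ≃ₗᵢ[ℝ] E)) : ∀ H ∈ ({G} : Set (Subgroup (E ≃ₗᵢ[ℝ] E))),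
    ∀ H' ∈ ({G} : Set (Subgroup (E ≃ₗᵢ[ℝ] E))), H ⊓ H' ∈ ({G} : Set (Subgroup (E ≃ₗᵢ[ℝ] E))) := by
  rintro H rfl H' rfl
  exact inf_idem _

theorem mem_Al_one {G : Subgroup (E ≃ₗᵢ[ℝ] E)} {a : E →L[ℝ] E} :
    a ∈ Al {G} (one_ne G) (one_inf G) ↔ ∃ F : Submodule ℝ (E →L[ℝ] E), FiniteDimensional ℝ F ∧
      ∀ T ∈ G, cj T a ∈ F := by
  constructor
  · rintro ⟨H, hH, F, hF1, hF2, ha⟩
    rw [Set.mem_singleton_iff] at hH
    subst hH
    exact ⟨F, hF1, fun T hT => hF2 T hT a ha⟩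
  · rintro ⟨F, hF1, hF2⟩
    refine ⟨G, rfl, Submodule.span ℝ {b | ∃ T ∈ G, b = cj T a}, ?_, ?_, ?_⟩
    · apply Submodule.finiteDimensional_of_le (S₂ := F)
      rw [Submodule.span_le]
      rintro _ ⟨T, hT, rfl⟩
      exact hF2 T hT
    · intro S hS c hc
      have : Submodule.span ℝ {b | ∃ T ∈ G, b = cj T a} ≤
          (Submodule.span ℝ {b | ∃ T ∈ G, b = cj T a}).comap (cl S) := by
        rw [Submodule.span_le]
        rintro _ ⟨T, hT, rfl⟩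
        exact Submodule.subset_span ⟨S * T, G.mul_mem hS hT, rfl⟩
      exact this hc
    · exact Submodule.subset_span ⟨1, G.one_mem, rfl⟩

end

end Pool.Agent.TH596.RO
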